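import Pool.Agent.SlabHex.Verts

set_option autoImplicit false

/-! Hexagons of the slab, and the count of small 2-faces through each edge. -/

namespace Pool.Agent.SlabHex

open Module

variable {d : ℕ}

theorem five_le {r : ℕ} {p : Option (Fin d)} {A : Finset (Option (Fin d))} (hp : p ∉ A)
    (hA : A.card = r) (i j : {q : Option (Fin d) // q ≠ p}) (hi : i.1 ∈ A) (hj : j.1 ∉ A) :
    5 ≤ (((sv p A hp hA).face {i, j}).extremePoints ℝ).ncard := by
  classical
  obtain ⟨a, ha⟩ := i
  obtain ⟨b, hb⟩ := j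
  simp only at hi hj
  have hab : a ≠ b := by
    rintro rfl
    exact hj hi
  set S := ((sv p A hp hA).face {⟨a, ha⟩, ⟨b, hb⟩}).extremePoints ℝ with hS
  have hfin : S.Finite :=
    Set.Finite.subset (Finset.finite_toSet _) (ext_subset ((sv p A hp hA).exposed_face _))
  have hcard1 : (A.erase a).card = r - 1 := by
    rw [Finset.card_erase_of_mem hi, hA]
  have hr : 0 < r := by
    rw [← hA]
    exact Finset.card_pos.2 ⟨a, hi⟩
  have hpe : p ∉ A.erase a := fun h => hp (Finset.mem_of_mem_erase h)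
  have hbe : b ∉ A.erase a := fun h => hj (Finset.mem_of_mem_erase h)
  have hae : a ∉ A.erase a := Finset.notMem_erase a A
  have hcp : (insert p (A.erase a)).card = r := by
    rw [Finset.card_insert_of_notMem hpe, hcard1]
    omega
  have hcb : (insert b (A.erase a)).card = r := by
    rw [Finset.card_insert_of_notMem hbe, hcard1]
    omega
  let h : E d → ℝ := fun x => -(ext (x - pt (X p A)) p + 3 * ext (x - pt (X p A)) a)
  have hval : ∀ (p' : Option (Fin d)) (A' : Finset (Option (Fin d))), p' ∉ A' → A'.card = r →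
      h (pt (X p' A')) = -((X p' A' p - X p A p) + 3 * (X p' A' a - X p A a)) := by
    intro p' A' h1 h2
    have h3 : ∑ q, X p' A' q = ∑ q, X p A q := by
      rw [X_sum h1, X_sum hp, h2, hA]
    simp only [h]
    rw [ext_sub _ _ h3, ext_sub _ _ h3]
  have hmem : ∀ (p' : Option (Fin d)) (A' : Finset (Option (Fin d))), p' ∉ A' → A'.card = r →
      (∀ q, q ≠ p → q ≠ a → q ≠ b → X p' A' q = X p A q) → pt (X p' A') ∈ S := by
    intro p' A' h1 h2 h3
    refine mem_ext_face hp hA _ h1 h2 fun q hq => h3 q.1 q.2 ?_ ?_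
    · intro h4
      apply hq
      rw [Finset.mem_insert]
      exact Or.inl (Subtype.ext h4)
    · intro h4
      apply hq
      rw [Finset.mem_insert, Finset.mem_singleton]
      exact Or.inr (Subtype.ext h4)
  have hXp : X p A p = 1 := by
    simp [X, hp]
  have hXa : X p A a = 2 := by
    simp [X, hi]
  have e0 : (0 : ℝ) ∈ h '' S := by
    refine ⟨pt (X p A), hmem p A hp hA (fun q _ _ _ => rfl), ?_⟩
    rw [hval p A hp hA]
    ring
  have e1 : (1 : ℝ) ∈ h '' S := by
    refine ⟨pt (X b A), hmem b A hj hA (fun q h1 _ h3 => ?_), ?_⟩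
    · simp [X, h1, h3]
    · rw [hval b A hj hA, hXp, hXa]
      simp [X, hi, hp, hb.symm]
  have e2 : (2 : ℝ) ∈ h '' S := by
    have ha2 : a ∉ insert p (A.erase a) := by
      simp [ha]
    refine ⟨pt (X a (insert p (A.erase a))), hmem a _ ha2 hcp (fun q h1 h2 _ => ?_), ?_⟩
    · simp [X, h1, h2]
    · rw [hval a _ ha2 hcp, hXp, hXa]
      simp [X, ha]
      norm_num
  have e4 : (4 : ℝ) ∈ h '' S := by
    have ha2 : a ∉ insert b (A.erase a) := by
      simp [hab]
    refine ⟨pt (X a (insert b (A.erase a))), hmem a _ ha2 hcb (fun q h1 h2 h3 => ?_), ?_⟩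
    · simp [X, h1, h2, h3]
    · rw [hval a _ ha2 hcb, hXp, hXa]
      simp [X, hab, hb.symm, hp, ha.symm]
      norm_num
  have e5 : (5 : ℝ) ∈ h '' S := by
    have hb2 : b ∉ insert p (A.erase a) := by
      simp [hb, hj]
    refine ⟨pt (X b (insert p (A.erase a))), hmem b _ hb2 hcp (fun q h1 h2 h3 => ?_), ?_⟩
    · simp [X, h1, h2, h3]
    · rw [hval b _ hb2 hcp, hXp, hXa]
      simp [X, ha, hab]
      norm_num
  have hsub : (((({0, 1, 2, 4, 5} : Finset ℕ).map Nat.castEmbedding : Finset ℝ)) : Set ℝ)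
      ⊆ h '' S := by
    intro x hx
    simp only [Finset.coe_map, Set.mem_image, Finset.mem_coe, Finset.mem_insert,
      Finset.mem_singleton, Nat.castEmbedding_apply] at hx
    obtain ⟨n, hn, rfl⟩ := hx
    rcases hn with rfl | rfl | rfl | rfl | rfl
    · simpa using e0
    · simpa using e1
    · simpa using e2
    · simpa using e4
    · simpa using e5
  have h1 := Set.ncard_le_ncard hsub (hfin.image h)
  rw [Set.ncard_coe_finset, Finset.card_map] at h1
  have h2 := Set.ncard_image_le (f := h) hfin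
  have h3 : ({0, 1, 2, 4, 5} : Finset ℕ).card = 5 := rfl
  omega

theorem small_count {r : ℕ} (hd : d = 2 * r) (hr : 1 ≤ r) (w : E d) (hw : w ∈ V d r) :
    ∃ (ι : Type) (_ : Fintype ι) (_ : DecidableEq ι) (D : SV (V d r) w ι),
      ∀ i, ∃ B : Finset ι, 2 * B.card ≤ Fintype.card ι - 1 ∧
        ∀ j, j ≠ i → j ∉ B → 5 ≤ ((D.face {i, j}).extremePoints ℝ).ncard := by
  classical
  obtain ⟨p, A, hp, hA, rfl⟩ := (mem_V w).1 hw
  refine ⟨{q : Option (Fin d) // q ≠ p}, inferInstance, inferInstance, sv p A hp hA, ?_⟩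
  have hcard : Fintype.card {q : Option (Fin d) // q ≠ p} = 2 * r := by
    rw [Fintype.card_subtype_compl]
    simp [hd]
  intro i
  refine ⟨Finset.univ.filter fun j => j ≠ i ∧ (j.1 ∈ A ↔ i.1 ∈ A), ?_, ?_⟩
  · rw [hcard]
    have hmap : (Finset.univ.filter fun j : {q : Option (Fin d) // q ≠ p} =>
        j ≠ i ∧ (j.1 ∈ A ↔ i.1 ∈ A)).card =
        ((Finset.univ.filter fun j : {q : Option (Fin d) // q ≠ p} =>
          j ≠ i ∧ (j.1 ∈ A ↔ i.1 ∈ A)).map (Function.Embedding.subtype _)).card := by
      rw [Finset.card_map]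
    rw [hmap]
    by_cases hi : i.1 ∈ A
    · have hsub : ((Finset.univ.filter fun j : {q : Option (Fin d) // q ≠ p} =>
          j ≠ i ∧ (j.1 ∈ A ↔ i.1 ∈ A)).map (Function.Embedding.subtype _)) ⊆ A.erase i.1 := by
        intro q hq
        rw [Finset.mem_map] at hq
        obtain ⟨j, hj, rfl⟩ := hq
        rw [Finset.mem_filter] at hj
        rw [Finset.mem_erase]
        exact ⟨fun h => hj.2.1 (Subtype.ext h), hj.2.2.2 hi⟩
      have h1 := Finset.card_le_card hsub
      rw [Finset.card_erase_of_mem hi, hA] at h1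
      omega
    · have hsub : ((Finset.univ.filter fun j : {q : Option (Fin d) // q ≠ p} =>
          j ≠ i ∧ (j.1 ∈ A ↔ i.1 ∈ A)).map (Function.Embedding.subtype _))
          ⊆ ((insert p A)ᶜ).erase i.1 := by
        intro q hq
        rw [Finset.mem_map] at hq
        obtain ⟨j, hj, rfl⟩ := hq
        rw [Finset.mem_filter] at hj
        rw [Finset.mem_erase, Finset.mem_compl, Finset.mem_insert]
        refine ⟨fun h => hj.2.1 (Subtype.ext h), ?_⟩
        rintro (h | h)
        · exact j.2 h
        · exact hi (hj.2.2.1 h)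
      have h1 := Finset.card_le_card hsub
      have h2 : i.1 ∈ (insert p A)ᶜ := by
        rw [Finset.mem_compl, Finset.mem_insert]
        rintro (h | h)
        · exact i.2 h
        · exact hi h
      rw [Finset.card_erase_of_mem h2, Finset.card_compl, Finset.card_insert_of_notMem hp, hA] at h1
      have h3 : Fintype.card (Option (Fin d)) = d + 1 := by
        simp
      rw [h3] at h1
      omega
  · intro j hji hjB
    have hne : ¬ (j.1 ∈ A ↔ i.1 ∈ A) := by
      intro h
      apply hjB
      rw [Finset.mem_filter]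
      exact ⟨Finset.mem_univ _, hji, h⟩
    by_cases hi : i.1 ∈ A
    · exact five_le hp hA i j hi fun h => hne ⟨fun _ => hi, fun _ => h⟩
    · have hj : j.1 ∈ A := by
        by_contra hj
        exact hne ⟨fun h => absurd h hj, fun h => absurd h hi⟩
      rw [Finset.pair_comm]
      exact five_le hp hA j i hj hi

/-- In the slab of dimension `2r`, every edge lies in at least twice as many 2-faces as
2-faces with at most four vertices. -/
theorem slab {r : ℕ} (hd : d = 2 * r) (hr : 1 ≤ r) :
    affineSpan ℝ (V d r : Set (E d)) = ⊤ ∧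
    ∀ e : Set (E d), IsExposed ℝ (convexHull ℝ (V d r : Set (E d))) e →
      finrank ℝ (affineSpan ℝ e).direction = 1 →
      2 * {G : Set (E d) | IsExposed ℝ (convexHull ℝ (V d r : Set (E d))) G ∧
        finrank ℝ (affineSpan ℝ G).direction = 2 ∧
        e ⊆ G ∧ (Set.extremePoints ℝ G).ncard ≤ 4}.ncard ≤
      {G : Set (E d) | IsExposed ℝ (convexHull ℝ (V d r : Set (E d))) G ∧
        finrank ℝ (affineSpan ℝ G).direction = 2 ∧ e ⊆ G}.ncard := by
  refine ⟨?_, fun e he h1 => main_of_SV (V d r) (small_count hd hr) e he h1⟩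
  have hex : ∃ A : Finset (Option (Fin d)), none ∉ A ∧ A.card = r := by
    have h1 : r ≤ ((Finset.univ : Finset (Option (Fin d))).erase none).card := by
      rw [Finset.card_erase_of_mem (Finset.mem_univ _)]
      simp
      omega
    obtain ⟨A, hA1, hA2⟩ := Finset.exists_subset_card_eq h1
    exact ⟨A, fun h => (Finset.mem_erase.1 (hA1 h)).1 rfl, hA2⟩
  obtain ⟨A, hA1, hA2⟩ := hex
  exact (sv none A hA1 hA2).span_top

end Pool.Agent.SlabHex
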