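import Mathlib

set_option autoImplicit false

/-! Simple vertices of a polytope `conv V` in `ℝ^d`: faces through such a vertex. -/

namespace Pool.Agent.SlabHex

open Module

/-- the ambient space -/
abbrev E (d : ℕ) := EuclideanSpace ℝ (Fin d)

/-- Data of a simple vertex `v` of `conv V`: a basis `u` (with dual functionals `c`) such that
`V` lies in the cone `v + cone(u)` and each `v + u i` is a point of `V`. -/
structure SV {d : ℕ} (V : Finset (E d)) (v : E d) (ι : Type) [Fintype ι] [DecidableEq ι] where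
  c : ι → (E d →ₗ[ℝ] ℝ)
  u : ι → E d
  dual : ∀ i j, c i (u j) = if i = j then 1 else 0
  sep : ∀ x : E d, (∀ i, c i x = 0) → x = 0
  vmem : v ∈ V
  nonneg : ∀ w ∈ V, ∀ i, 0 ≤ c i (w - v)
  nbr : ∀ i, v + u i ∈ V

namespace SV

variable {d : ℕ} {V : Finset (E d)} {v : E d} {ι : Type} [Fintype ι] [DecidableEq ι]

/-- the polytope -/
abbrev P (V : Finset (E d)) : Set (E d) := convexHull ℝ (V : Set (E d))

theorem expand (D : SV V v ι) (x : E d) : x = ∑ i, D.c i x • D.u i := by
  rw [← sub_eq_zero]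
  apply D.sep
  intro i
  rw [map_sub, map_sum]
  simp only [map_smul, smul_eq_mul, D.dual]
  simp

theorem hull_nonneg (D : SV V v ι) {x : E d} (hx : x ∈ P V) (i : ι) : 0 ≤ D.c i (x - v) := by
  have h1 : Convex ℝ {x : E d | 0 ≤ D.c i (x - v)} := by
    have : {x : E d | 0 ≤ D.c i (x - v)} = {x : E d | D.c i v ≤ D.c i x} := by
      ext x
      simp [map_sub]
    rw [this]
    exact convex_halfSpace_ge (D.c i).isLinear _
  exact convexHull_min (fun w hw => D.nonneg w hw i) h1 hx

theorem v_mem (D : SV V v ι) : v ∈ P V := subset_convexHull ℝ _ D.vmem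

theorem nbr_mem (D : SV V v ι) (i : ι) : v + D.u i ∈ P V := subset_convexHull ℝ _ (D.nbr i)

/-- the face through `v` with directions in `S` -/
def face (D : SV V v ι) (S : Finset ι) : Set (E d) :=
  {x | x ∈ P V ∧ ∀ i, i ∉ S → D.c i (x - v) = 0}

theorem v_mem_face (D : SV V v ι) (S : Finset ι) : v ∈ D.face S :=
  ⟨D.v_mem, fun i _ => by simp⟩

theorem nbr_mem_face (D : SV V v ι) (S : Finset ι) (i : ι) : v + D.u i ∈ D.face S ↔ i ∈ S := by
  constructor
  · intro h
    by_contra hi
    have := h.2 i hi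
    rw [add_sub_cancel_left, D.dual] at this
    simp at this
  · intro h
    refine ⟨D.nbr_mem i, fun j hj => ?_⟩
    rw [add_sub_cancel_left, D.dual]
    rw [if_neg]
    rintro rfl
    exact hj h

theorem face_subset (D : SV V v ι) {S T : Finset ι} : D.face S ⊆ D.face T ↔ S ⊆ T := by
  constructor
  · intro h i hi
    exact (D.nbr_mem_face T i).1 (h ((D.nbr_mem_face S i).2 hi))
  · intro h x hx
    exact ⟨hx.1, fun i hi => hx.2 i fun h2 => hi (h h2)⟩

theorem face_inj (D : SV V v ι) {S T : Finset ι} (h : D.face S = D.face T) : S = T :=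
  Finset.Subset.antisymm (D.face_subset.1 h.subset) (D.face_subset.1 h.symm.subset)

theorem exposed_eq (D : SV V v ι) {G : Set (E d)} (hG : IsExposed ℝ (P V) G) (hv : v ∈ G) :
    ∃ S : Finset ι, G = D.face S := by
  classical
  obtain ⟨l, hl⟩ := hG ⟨v, hv⟩
  have hv2 : ∀ y ∈ P V, l y ≤ l v := by
    rw [hl] at hv
    exact hv.2
  have hneg : ∀ i, l (D.u i) ≤ 0 := by
    intro i
    have := hv2 _ (D.nbr_mem i)
    rw [map_add] at this
    linarith
  refine ⟨Finset.univ.filter fun i => l (D.u i) = 0, ?_⟩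
  have hexp : ∀ x, l (x - v) = ∑ i, D.c i (x - v) * l (D.u i) := by
    intro x
    conv_lhs => rw [D.expand (x - v)]
    rw [map_sum]
    simp
  ext x
  rw [hl]
  constructor
  · rintro ⟨hx, hx2⟩
    refine ⟨hx, fun i hi => ?_⟩
    have h0 : l (x - v) = 0 := by
      rw [map_sub]
      have := hx2 _ D.v_mem
      have := hv2 _ hx
      linarith
    rw [hexp] at h0
    have hterm : ∀ j ∈ (Finset.univ : Finset ι), D.c j (x - v) * l (D.u j) ≤ 0 := fun j _ =>
      mul_nonpos_of_nonneg_of_nonpos (D.hull_nonneg hx j) (hneg j)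
    have := (Finset.sum_eq_zero_iff_of_nonpos hterm).1 h0 i (Finset.mem_univ i)
    rcases mul_eq_zero.1 this with h | h
    · exact h
    · exact absurd (by simpa using h) hi
  · rintro ⟨hx, hx2⟩
    refine ⟨hx, fun y hy => ?_⟩
    have h0 : l (x - v) = 0 := by
      rw [hexp]
      refine Finset.sum_eq_zero fun i _ => ?_
      by_cases hi : l (D.u i) = 0
      · rw [hi, mul_zero]
      · rw [hx2 i (by simpa using hi), zero_mul]
    rw [map_sub, sub_eq_zero] at h0
    rw [h0]
    exact hv2 y hy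

theorem linInd (D : SV V v ι) : LinearIndependent ℝ D.u := by
  rw [Fintype.linearIndependent_iff]
  intro g hg i
  have := congrArg (D.c i) hg
  rw [map_sum, map_zero] at this
  simp only [map_smul, smul_eq_mul, D.dual] at this
  simpa using this

theorem dir_face (D : SV V v ι) (S : Finset ι) :
    (affineSpan ℝ (D.face S)).direction = Submodule.span ℝ (Set.range fun i : S => D.u i) := by
  rw [direction_affineSpan]
  apply le_antisymm
  · rw [vectorSpan_eq_span_vsub_set_right ℝ (D.v_mem_face S)]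
    rw [Submodule.span_le]
    rintro _ ⟨x, hx, rfl⟩
    show x - v ∈ _
    rw [D.expand (x - v)]
    refine Submodule.sum_mem _ fun i _ => ?_
    by_cases hi : i ∈ S
    · exact Submodule.smul_mem _ _ (Submodule.subset_span ⟨⟨i, hi⟩, rfl⟩)
    · rw [hx.2 i hi, zero_smul]
      exact Submodule.zero_mem _
  · rw [Submodule.span_le]
    rintro _ ⟨⟨i, hi⟩, rfl⟩
    show D.u i ∈ vectorSpan ℝ (D.face S)
    have := vsub_mem_vectorSpan ℝ ((D.nbr_mem_face S i).2 hi) (D.v_mem_face S)
    rwa [vsub_eq_sub, add_sub_cancel_left] at this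

theorem finrank_face (D : SV V v ι) (S : Finset ι) :
    finrank ℝ (affineSpan ℝ (D.face S)).direction = S.card := by
  rw [D.dir_face S]
  have := finrank_span_eq_card (D.linInd.comp (fun i : S => (i : ι)) Subtype.val_injective)
  simpa [Function.comp_def] using this

theorem span_top (D : SV V v ι) : affineSpan ℝ (V : Set (E d)) = ⊤ := by
  have hne : ((affineSpan ℝ (V : Set (E d))) : Set (E d)).Nonempty :=
    ⟨v, subset_affineSpan ℝ _ D.vmem⟩
  rw [← AffineSubspace.direction_eq_top_iff_of_nonempty hne, direction_affineSpan, eq_top_iff]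
  intro x _
  rw [D.expand x]
  refine Submodule.sum_mem _ fun i _ => Submodule.smul_mem _ _ ?_
  have := vsub_mem_vectorSpan ℝ (D.nbr i : (v + D.u i) ∈ (V : Set (E d))) D.vmem
  rwa [vsub_eq_sub, add_sub_cancel_left] at this

theorem extreme (D : SV V v ι) : v ∈ (P V).extremePoints ℝ := by
  refine ⟨D.v_mem, ?_⟩
  intro x hx y hy hxy
  obtain ⟨a, b, ha, hb, hab, h⟩ := hxy
  have key : ∀ i, D.c i (x - v) = 0 := by
    intro i
    have h1 := D.hull_nonneg hx i
    have h2 := D.hull_nonneg hy i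
    have h3 : a * D.c i (x - v) + b * D.c i (y - v) = 0 := by
      have : a • (x - v) + b • (y - v) = 0 := by
        rw [smul_sub, smul_sub]
        have : a • x - a • v + (b • y - b • v) = (a • x + b • y) - (a + b) • v := by
          rw [add_smul]
          abel
        rw [this, h, hab, one_smul, sub_self]
      have := congrArg (D.c i) this
      simpa using this
    have h4 : 0 ≤ a * D.c i (x - v) := mul_nonneg ha.le h1
    have h5 : 0 ≤ b * D.c i (y - v) := mul_nonneg hb.le h2
    have h6 : a * D.c i (x - v) = 0 := by linarith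
    rcases mul_eq_zero.1 h6 with h | h
    · exact absurd h ha.ne'
    · exact h
  exact sub_eq_zero.1 (D.sep _ key)

theorem exposed_face (D : SV V v ι) (S : Finset ι) : IsExposed ℝ (P V) (D.face S) := by
  intro _
  have hl : ∀ x : E d, LinearMap.toContinuousLinearMap (-∑ i ∈ Sᶜ, D.c i) x
      = -∑ i ∈ Sᶜ, D.c i x := by
    intro x
    simp
  refine ⟨LinearMap.toContinuousLinearMap (-∑ i ∈ Sᶜ, D.c i), ?_⟩
  have hsub : ∀ x, (∑ i ∈ Sᶜ, D.c i (x - v)) = (∑ i ∈ Sᶜ, D.c i x) - ∑ i ∈ Sᶜ, D.c i v := by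
    intro x
    simp only [map_sub, Finset.sum_sub_distrib]
  ext x
  constructor
  · rintro ⟨hx, hx2⟩
    refine ⟨hx, fun y hy => ?_⟩
    rw [hl, hl]
    have h1 : (∑ i ∈ Sᶜ, D.c i (x - v)) = 0 :=
      Finset.sum_eq_zero fun i hi => hx2 i (Finset.mem_compl.1 hi)
    have h2 : 0 ≤ (∑ i ∈ Sᶜ, D.c i (y - v)) :=
      Finset.sum_nonneg fun i _ => D.hull_nonneg hy i
    rw [hsub] at h1 h2
    linarith
  · rintro ⟨hx, hx2⟩
    refine ⟨hx, fun i hi => ?_⟩
    have h1 := hx2 v D.v_mem
    rw [hl, hl] at h1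
    have h2 : (∑ i ∈ Sᶜ, D.c i (x - v)) = 0 := by
      apply le_antisymm
      · rw [hsub]
        linarith
      · exact Finset.sum_nonneg fun i _ => D.hull_nonneg hx i
    exact (Finset.sum_eq_zero_iff_of_nonneg fun i _ => D.hull_nonneg hx i).1 h2 i
      (Finset.mem_compl.2 hi)

/-- the 2-faces through the edge `face {i}` -/
theorem two_faces (D : SV V v ι) (i : ι) (G : Set (E d)) :
    (IsExposed ℝ (P V) G ∧ finrank ℝ (affineSpan ℝ G).direction = 2 ∧ D.face {i} ⊆ G) ↔
      ∃ j, j ≠ i ∧ G = D.face {i, j} := by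
  constructor
  · rintro ⟨h1, h2, h3⟩
    obtain ⟨S, rfl⟩ := D.exposed_eq h1 (h3 (D.v_mem_face {i}))
    rw [D.finrank_face] at h2
    have hi : i ∈ S := by
      have := D.face_subset.1 h3
      exact this (Finset.mem_singleton_self i)
    have h4 : (S.erase i).card = 1 := by
      rw [Finset.card_erase_of_mem hi, h2]
    obtain ⟨j, hj⟩ := Finset.card_eq_one.1 h4
    refine ⟨j, ?_, ?_⟩
    · have : j ∈ S.erase i := by
        rw [hj]
        exact Finset.mem_singleton_self j
      exact (Finset.mem_erase.1 this).1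
    · rw [← Finset.insert_erase hi, hj]
  · rintro ⟨j, hj, rfl⟩
    refine ⟨D.exposed_face _, ?_, ?_⟩
    · rw [D.finrank_face, Finset.card_pair hj.symm]
    · rw [D.face_subset]
      intro k hk
      rw [Finset.mem_singleton.1 hk]
      exact Finset.mem_insert_self _ _

theorem pair_inj (D : SV V v ι) (i : ι) {j k : ι} (hj : j ≠ i)
    (h : D.face {i, j} = D.face {i, k}) : j = k := by
  have h1 := D.face_inj h
  have : j ∈ ({i, k} : Finset ι) := by
    rw [← h1]
    simp
  rw [Finset.mem_insert, Finset.mem_singleton] at this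
  rcases this with h | h
  · exact absurd h hj
  · exact h

/-- number of 2-faces through an edge at a simple vertex -/
theorem count_all (D : SV V v ι) (i : ι) :
    {G : Set (E d) | IsExposed ℝ (P V) G ∧ finrank ℝ (affineSpan ℝ G).direction = 2 ∧
      D.face {i} ⊆ G}.ncard = Fintype.card ι - 1 := by
  classical
  have h1 : {G : Set (E d) | IsExposed ℝ (P V) G ∧ finrank ℝ (affineSpan ℝ G).direction = 2 ∧
      D.face {i} ⊆ G} = (fun j => D.face {i, j}) '' (↑(Finset.univ.erase i) : Set ι) := by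
    ext G
    rw [Set.mem_ofPred_eq, D.two_faces]
    constructor
    · rintro ⟨j, hj, rfl⟩
      exact ⟨j, by simpa using hj, rfl⟩
    · rintro ⟨j, hj, rfl⟩
      exact ⟨j, by simpa using hj, rfl⟩
  rw [h1, Set.InjOn.ncard_image, Set.ncard_coe_finset, Finset.card_erase_of_mem
    (Finset.mem_univ i), Finset.card_univ]
  intro j hj k hk h
  exact D.pair_inj i (by simpa using hj) h

/-- the 2-faces with at most four vertices through an edge at a simple vertex -/
theorem count_small (D : SV V v ι) (i : ι) (B : Finset ι)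
    (hB : ∀ j, j ≠ i → j ∉ B → 5 ≤ ((D.face {i, j}).extremePoints ℝ).ncard) :
    {G : Set (E d) | IsExposed ℝ (P V) G ∧ finrank ℝ (affineSpan ℝ G).direction = 2 ∧
      D.face {i} ⊆ G ∧ (Set.extremePoints ℝ G).ncard ≤ 4}.ncard ≤ B.card := by
  classical
  have h1 : {G : Set (E d) | IsExposed ℝ (P V) G ∧ finrank ℝ (affineSpan ℝ G).direction = 2 ∧
      D.face {i} ⊆ G ∧ (Set.extremePoints ℝ G).ncard ≤ 4}
      ⊆ (fun j => D.face {i, j}) '' (↑B : Set ι) := by
    rintro G ⟨a1, a2, a3, a4⟩
    obtain ⟨j, hj, rfl⟩ := (D.two_faces i G).1 ⟨a1, a2, a3⟩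
    refine ⟨j, ?_, rfl⟩
    by_contra hjB
    have := hB j hj (by simpa using hjB)
    omega
  refine (Set.ncard_le_ncard h1 (Set.toFinite _)).trans ?_
  refine (Set.ncard_image_le (Set.toFinite _)).trans ?_
  rw [Set.ncard_coe_finset]

end SV

/-- extreme points of an exposed face lie in `V` -/
theorem ext_subset {d : ℕ} {V : Finset (E d)} {G : Set (E d)} (hG : IsExposed ℝ (SV.P V) G) :
    G.extremePoints ℝ ⊆ (V : Set (E d)) := by
  intro x hx
  have h0 : IsExtreme ℝ (convexHull ℝ (V : Set (E d))) G := IsExposed.isExtreme hG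
  have h1 : x ∈ (convexHull ℝ (V : Set (E d))).extremePoints ℝ :=
    h0.extremePoints_subset_extremePoints hx
  exact extremePoints_convexHull_subset h1

theorem main_of_SV {d : ℕ} (V : Finset (E d))
    (h : ∀ v ∈ V, ∃ (ι : Type) (_ : Fintype ι) (_ : DecidableEq ι) (D : SV V v ι),
      ∀ i, ∃ B : Finset ι, 2 * B.card ≤ Fintype.card ι - 1 ∧
        ∀ j, j ≠ i → j ∉ B → 5 ≤ ((D.face {i, j}).extremePoints ℝ).ncard)
    (e : Set (E d)) (he : IsExposed ℝ (convexHull ℝ (V : Set (E d))) e)
    (hd : finrank ℝ (affineSpan ℝ e).direction = 1) :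
    2 * {G : Set (E d) | IsExposed ℝ (convexHull ℝ (V : Set (E d))) G ∧
      finrank ℝ (affineSpan ℝ G).direction = 2 ∧
      e ⊆ G ∧ (Set.extremePoints ℝ G).ncard ≤ 4}.ncard ≤
    {G : Set (E d) | IsExposed ℝ (convexHull ℝ (V : Set (E d))) G ∧
      finrank ℝ (affineSpan ℝ G).direction = 2 ∧ e ⊆ G}.ncard := by
  classical
  have hne : e.Nonempty := by
    rw [Set.nonempty_iff_ne_empty]
    rintro rfl
    rw [direction_affineSpan, vectorSpan_empty] at hd
    simp at hd
  have hcomp : IsCompact e := he.isCompact (V.finite_toSet.isCompact_convexHull ℝ)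
  obtain ⟨v, hv⟩ := hcomp.extremePoints_nonempty hne
  have hvV : v ∈ V := ext_subset he hv
  obtain ⟨ι, i1, i2, D, hD⟩ := h v hvV
  obtain ⟨S, rfl⟩ := D.exposed_eq he hv.1
  rw [D.finrank_face] at hd
  obtain ⟨i, rfl⟩ := Finset.card_eq_one.1 hd
  obtain ⟨B, hB1, hB2⟩ := hD i
  have h1 := D.count_all i
  have h2 := D.count_small i B hB2
  refine le_trans (Nat.mul_le_mul_left 2 h2) ?_
  rw [show SV.P V = convexHull ℝ (V : Set (E d)) from rfl] at h1
  rw [h1]
  exact hB1

end Pool.Agent.SlabHex
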