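import Pool.Agent.SlabHex.Simple

set_option autoImplicit false

/-! The slab of the cube: vertices `(p, A)` and the simple vertex data at each of them. -/

namespace Pool.Agent.SlabHex

open Module

variable {d : ℕ}

/-- the function with value `2` on `A`, `1` at `p` and `0` elsewhere -/
def X (p : Option (Fin d)) (A : Finset (Option (Fin d))) (q : Option (Fin d)) : ℝ :=
  if q ∈ A then 2 else if q = p then 1 else 0

/-- forget the last coordinate -/
def pt (Y : Option (Fin d) → ℝ) : E d := WithLp.toLp 2 (fun i => Y (some i))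

@[simp] theorem pt_apply (Y : Option (Fin d) → ℝ) (i : Fin d) : pt Y i = Y (some i) := rfl

/-- restore the last coordinate (for difference vectors) -/
def ext : E d →ₗ[ℝ] (Option (Fin d) → ℝ) where
  toFun x := fun q => q.elim (-∑ i, x i) (fun i => x i)
  map_add' x y := by
    funext q
    cases q with
    | none =>
      simp [Finset.sum_add_distrib]
      ring
    | some i => simp
  map_smul' a x := by
    funext q
    cases q with
    | none =>
      simp [Finset.mul_sum]
    | some i => simp

@[simp] theorem ext_some (x : E d) (i : Fin d) : ext x (some i) = x i := rfl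

@[simp] theorem ext_none (x : E d) : ext x none = -∑ i, x i := rfl

theorem ext_sum (x : E d) : ∑ q, ext x q = 0 := by
  rw [Fintype.sum_option]
  simp

theorem ext_sub (Y Z : Option (Fin d) → ℝ) (h : ∑ q, Y q = ∑ q, Z q) (q : Option (Fin d)) :
    ext (pt Y - pt Z) q = Y q - Z q := by
  cases q with
  | some i => simp
  | none =>
    rw [Fintype.sum_option, Fintype.sum_option] at h
    simp
    linarith

theorem X_sum {p : Option (Fin d)} {A : Finset (Option (Fin d))} (hp : p ∉ A) :
    ∑ q, X p A q = 2 * (A.card : ℝ) + 1 := by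
  have h1 : ∀ q, X p A q = (if q ∈ A then (2 : ℝ) else 0) + (if q = p then 1 else 0) := by
    intro q
    unfold X
    by_cases h : q ∈ A
    · rw [if_pos h, if_pos h, if_neg]
      · ring
      · rintro rfl
        exact hp h
    · rw [if_neg h, if_neg h]
      ring
  rw [Finset.sum_congr rfl (fun q _ => h1 q), Finset.sum_add_distrib]
  rw [Finset.sum_ite_mem, Finset.univ_inter]
  simp
  ring

theorem X_le (p : Option (Fin d)) (A : Finset (Option (Fin d))) (q : Option (Fin d)) :
    X p A q ≤ 2 := by
  unfold X
  split_ifs <;> norm_num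

theorem X_nonneg (p : Option (Fin d)) (A : Finset (Option (Fin d))) (q : Option (Fin d)) :
    0 ≤ X p A q := by
  unfold X
  split_ifs <;> norm_num

/-- the vertex set -/
noncomputable def V (d r : ℕ) : Finset (E d) := by
  classical
  exact (Finset.univ.filter fun y : Option (Fin d) × Finset (Option (Fin d)) =>
    y.1 ∉ y.2 ∧ y.2.card = r).image fun y => pt (X y.1 y.2)

theorem mem_V {r : ℕ} (w : E d) :
    w ∈ V d r ↔ ∃ p A, p ∉ A ∧ A.card = r ∧ w = pt (X p A) := by
  classical
  unfold V
  rw [Finset.mem_image]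
  constructor
  · rintro ⟨⟨p, A⟩, h, rfl⟩
    rw [Finset.mem_filter] at h
    exact ⟨p, A, h.2.1, h.2.2, rfl⟩
  · rintro ⟨p, A, h1, h2, rfl⟩
    exact ⟨⟨p, A⟩, by simp [h1, h2], rfl⟩

/-- sign of a coordinate -/
def sg (A : Finset (Option (Fin d))) (q : Option (Fin d)) : ℝ := if q ∈ A then -1 else 1

theorem sg_mul (A : Finset (Option (Fin d))) (q : Option (Fin d)) : sg A q * sg A q = 1 := by
  unfold sg
  split_ifs <;> norm_num

/-- the neighbour of `(p, A)` in direction `q` -/
def nA (p : Option (Fin d)) (A : Finset (Option (Fin d))) (q : Option (Fin d)) :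
    Finset (Option (Fin d)) := if q ∈ A then insert p (A.erase q) else A

theorem nA_not {p q : Option (Fin d)} {A : Finset (Option (Fin d))}
    (hq : q ≠ p) : q ∉ nA p A q := by
  unfold nA
  split_ifs with h
  · rw [Finset.mem_insert]
    rintro (h2 | h2)
    · exact hq h2
    · exact (Finset.notMem_erase q A) h2
  · exact h

theorem nA_card {p q : Option (Fin d)} {A : Finset (Option (Fin d))} (hp : p ∉ A) :
    (nA p A q).card = A.card := by
  unfold nA
  split_ifs with h
  · rw [Finset.card_insert_of_notMem, Finset.card_erase_of_mem h]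
    · have : 0 < A.card := Finset.card_pos.2 ⟨q, h⟩
      omega
    · intro h2
      exact hp (Finset.mem_of_mem_erase h2)
  · rfl

theorem X_nA {p q s : Option (Fin d)} {A : Finset (Option (Fin d))} (hp : p ∉ A) (hq : q ≠ p)
    (hs : s ≠ p) : X q (nA p A q) s - X p A s = if s = q then sg A q else 0 := by
  unfold X nA sg
  by_cases hqA : q ∈ A
  · by_cases hsq : s = q
    · subst hsq
      simp [hqA, hs]
      norm_num
    · by_cases hsA : s ∈ A
      · simp [hqA, hsA, hsq, hs]
      · simp [hqA, hsA, hsq, hs]
  · by_cases hsq : s = q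
    · subst hsq
      simp [hqA, hs]
    · by_cases hsA : s ∈ A
      · simp [hqA, hsA, hsq, hs]
      · simp [hqA, hsA, hsq, hs]

/-- simple vertex data at `(p, A)` -/
noncomputable def sv {r : ℕ} (p : Option (Fin d)) (A : Finset (Option (Fin d))) (hp : p ∉ A)
    (hA : A.card = r) : SV (V d r) (pt (X p A)) {q : Option (Fin d) // q ≠ p} where
  c q := sg A q.1 • ((LinearMap.proj q.1).comp ext)
  u q := pt (X q.1 (nA p A q.1)) - pt (X p A)
  dual i j := by
    have h1 : ∑ q, X j.1 (nA p A j.1) q = ∑ q, X p A q := by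
      rw [X_sum (nA_not j.2), X_sum hp, nA_card hp]
    simp only [LinearMap.smul_apply, LinearMap.comp_apply, LinearMap.proj_apply, smul_eq_mul]
    rw [ext_sub _ _ h1, X_nA hp j.2 i.2]
    by_cases h : i = j
    · rw [if_pos h, if_pos (by rw [h]), h, sg_mul]
    · rw [if_neg h, if_neg (fun h2 => h (Subtype.ext h2)), mul_zero]
  sep x hx := by
    have h1 : ∀ q, q ≠ p → ext x q = 0 := by
      intro q hq
      have := hx ⟨q, hq⟩
      simp only [LinearMap.smul_apply, LinearMap.comp_apply, LinearMap.proj_apply,
        smul_eq_mul] at this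
      rcases mul_eq_zero.1 this with h | h
      · have := sg_mul A q
        rw [h] at this
        norm_num at this
      · exact h
    have h2 : ext x p = 0 := by
      rw [← ext_sum x]
      symm
      exact Finset.sum_eq_single p (fun q _ hq => h1 q hq) (fun h => absurd (Finset.mem_univ p) h)
    ext i
    rw [← ext_some]
    by_cases h : some i = p
    · rw [h, h2]
      rfl
    · rw [h1 _ h]
      rfl
  vmem := (mem_V _).2 ⟨p, A, hp, hA, rfl⟩
  nonneg w hw i := by
    obtain ⟨p', A', h1, h2, rfl⟩ := (mem_V w).1 hw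
    have h3 : ∑ q, X p' A' q = ∑ q, X p A q := by
      rw [X_sum h1, X_sum hp, h2, hA]
    simp only [LinearMap.smul_apply, LinearMap.comp_apply, LinearMap.proj_apply, smul_eq_mul]
    rw [ext_sub _ _ h3]
    by_cases h : i.1 ∈ A
    · have h4 : X p A i.1 = 2 := by
        unfold X
        rw [if_pos h]
      have h5 : sg A i.1 = -1 := by
        unfold sg
        rw [if_pos h]
      rw [h4, h5]
      have := X_le p' A' i.1
      linarith
    · have h4 : X p A i.1 = 0 := by
        unfold X
        rw [if_neg h, if_neg i.2]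
      have h5 : sg A i.1 = 1 := by
        unfold sg
        rw [if_neg h]
      rw [h4, h5]
      have := X_nonneg p' A' i.1
      linarith
  nbr i := by
    rw [add_sub_cancel]
    exact (mem_V _).2 ⟨i.1, _, nA_not i.2, by rw [nA_card hp, hA], rfl⟩

/-- points of `V` in a face -/
theorem mem_face {r : ℕ} {p : Option (Fin d)} {A : Finset (Option (Fin d))} (hp : p ∉ A)
    (hA : A.card = r) (S : Finset {q : Option (Fin d) // q ≠ p}) {p' : Option (Fin d)}
    {A' : Finset (Option (Fin d))} (hp' : p' ∉ A') (hA' : A'.card = r)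
    (h : ∀ q : {q : Option (Fin d) // q ≠ p}, q ∉ S → X p' A' q.1 = X p A q.1) :
    pt (X p' A') ∈ (sv p A hp hA).face S := by
  refine ⟨subset_convexHull ℝ _ ((mem_V _).2 ⟨p', A', hp', hA', rfl⟩), fun i hi => ?_⟩
  have h3 : ∑ q, X p' A' q = ∑ q, X p A q := by
    rw [X_sum hp', X_sum hp, hA', hA]
  show (sg A i.1 • ((LinearMap.proj i.1).comp ext)) (pt (X p' A') - pt (X p A)) = 0
  simp only [LinearMap.smul_apply, LinearMap.comp_apply, LinearMap.proj_apply, smul_eq_mul]
  rw [ext_sub _ _ h3, h i hi, sub_self, mul_zero]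

theorem mem_ext_face {r : ℕ} {p : Option (Fin d)} {A : Finset (Option (Fin d))} (hp : p ∉ A)
    (hA : A.card = r) (S : Finset {q : Option (Fin d) // q ≠ p}) {p' : Option (Fin d)}
    {A' : Finset (Option (Fin d))} (hp' : p' ∉ A') (hA' : A'.card = r)
    (h : ∀ q : {q : Option (Fin d) // q ≠ p}, q ∉ S → X p' A' q.1 = X p A q.1) :
    pt (X p' A') ∈ ((sv p A hp hA).face S).extremePoints ℝ := by
  have h1 := (sv p' A' hp' hA').extreme
  have h2 := mem_face hp hA S hp' hA' h
  exact inter_extremePoints_subset_extremePoints_of_subset (fun x hx => hx.1) ⟨h2, h1⟩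

end Pool.Agent.SlabHex
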